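import Pool.Agent.TH231.DFM.Stmts

/-!
# Discrete Pisier inequality (job 5404, MP_755967_pr)
-/

set_option autoImplicit false

open MeasureTheory ProbabilityTheory Filter Topology

namespace Pool.TH667.DFMP

open Pool.TH231.DFM

private lemma prob_gam (κ : Type) [Fintype κ] : IsProbabilityMeasure (gam κ) := by
  unfold gam; infer_instance

private lemma ip_exp (κ : Type) [Fintype κ] (v g : κ → ℝ) :
    Real.exp (ip v g) = ∏ c, Real.exp (v c * g c) := by
  unfold ip; rw [Real.exp_sum]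

private lemma int_exp_ip (κ : Type) [Fintype κ] (v : κ → ℝ) :
    Integrable (fun g => Real.exp (ip v g)) (gam κ) := by
  simp_rw [ip_exp]
  unfold gam
  exact Integrable.fintype_prod (f := fun c x => Real.exp (v c * x))
    (fun c => integrable_exp_mul_gaussianReal (v c))

private lemma EE_exp_ip (κ : Type) [Fintype κ] (v : κ → ℝ) :
    ∫ g, Real.exp (ip v g) ∂(gam κ) = Real.exp (ip v v / 2) := by
  simp_rw [ip_exp]
  unfold gam
  rw [integral_fintype_prod_eq_prod (f := fun c x => Real.exp (v c * x))]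
  have h1 : ∀ c : κ, ∫ x, Real.exp (v c * x) ∂(gaussianReal 0 1) = Real.exp (v c * v c / 2) := by
    intro c
    have := congrFun (mgf_fun_id_gaussianReal (μ := 0) (v := 1)) (v c)
    unfold mgf at this
    rw [this]
    congr 1
    simp
    ring
  simp_rw [h1]
  rw [← Real.exp_sum]
  congr 1
  unfold ip
  rw [Finset.sum_div]

private lemma lint_exp_ip (κ : Type) [Fintype κ] (v : κ → ℝ) :
    ∫⁻ g, ENNReal.ofReal (Real.exp (ip v g)) ∂(gam κ) =
      ENNReal.ofReal (Real.exp (ip v v / 2)) := by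
  rw [← EE_exp_ip, ofReal_integral_eq_lintegral_ofReal (int_exp_ip κ v)]
  exact Filter.Eventually.of_forall fun g => (Real.exp_pos _).le

/-- rotation of a pair -/
private def rt {κ : Type} (c s : ℝ) (p : (κ → ℝ) × (κ → ℝ)) : (κ → ℝ) × (κ → ℝ) :=
  (fun i => c * p.1 i + s * p.2 i, fun i => -s * p.1 i + c * p.2 i)

private lemma rot (hL : St_LAW) (κ : Type) [Fintype κ] (c s : ℝ) (h : c ^ 2 + s ^ 2 = 1) :
    MeasurePreserving (rt (κ := κ) c s) ((gam κ).prod (gam κ)) ((gam κ).prod (gam κ)) := by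
  classical
  let A : κ ⊕ κ → κ ⊕ κ → ℝ := Sum.elim
    (fun i => Sum.elim (fun j => if j = i then c else 0) (fun j => if j = i then s else 0))
    (fun i => Sum.elim (fun j => if j = i then -s else 0) (fun j => if j = i then c else 0))
  have hA : ∀ i j, ip (A i) (A j) = if i = j then 1 else 0 := by
    rintro (i | i) (j | j)
    · simp only [ip, A, Fintype.sum_sum_type, Sum.elim_inl, Sum.elim_inr, Sum.inl.injEq]
      simp only [ite_mul, zero_mul, Finset.sum_ite_eq', Finset.mem_univ, if_true]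
      split_ifs with h1 <;> nlinarith
    · simp only [ip, A, Fintype.sum_sum_type, Sum.elim_inl, Sum.elim_inr, reduceCtorEq, if_false]
      simp only [ite_mul, zero_mul, Finset.sum_ite_eq', Finset.mem_univ, if_true]
      split_ifs with h1 <;> ring
    · simp only [ip, A, Fintype.sum_sum_type, Sum.elim_inl, Sum.elim_inr, reduceCtorEq, if_false]
      simp only [ite_mul, zero_mul, Finset.sum_ite_eq', Finset.mem_univ, if_true]
      split_ifs with h1 <;> ring
    · simp only [ip, A, Fintype.sum_sum_type, Sum.elim_inl, Sum.elim_inr, Sum.inr.injEq]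
      simp only [ite_mul, zero_mul, Finset.sum_ite_eq', Finset.mem_univ, if_true]
      split_ifs with h1 <;> nlinarith
  have h1 := hL (κ ⊕ κ) (κ ⊕ κ) A hA
  have e1 : MeasurePreserving (MeasurableEquiv.sumPiEquivProdPi (fun _ : κ ⊕ κ => ℝ))
      (gam (κ ⊕ κ)) ((gam κ).prod (gam κ)) :=
    measurePreserving_sumPiEquivProdPi (fun _ : κ ⊕ κ => gaussianReal 0 1)
  have e2 : MeasurePreserving (MeasurableEquiv.sumPiEquivProdPi (fun _ : κ ⊕ κ => ℝ)).symm
      ((gam κ).prod (gam κ)) (gam (κ ⊕ κ)) :=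
    measurePreserving_sumPiEquivProdPi_symm (fun _ : κ ⊕ κ => gaussianReal 0 1)
  have h2 := e1.comp (h1.comp e2)
  have h3 : (rt (κ := κ) c s) = (MeasurableEquiv.sumPiEquivProdPi (fun _ : κ ⊕ κ => ℝ)) ∘
      (fun (g : κ ⊕ κ → ℝ) (i : κ ⊕ κ) => ip (A i) g) ∘
        (MeasurableEquiv.sumPiEquivProdPi (fun _ : κ ⊕ κ => ℝ)).symm := by
    funext p
    refine Prod.ext (funext fun i => ?_) (funext fun i => ?_)
    · change c * p.1 i + s * p.2 i = ip (A (Sum.inl i)) _
      simp only [ip, A, Fintype.sum_sum_type, Sum.elim_inl, Sum.elim_inr]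
      simp only [ite_mul, zero_mul, Finset.sum_ite_eq', Finset.mem_univ, if_true]
      rfl
    · change -s * p.1 i + c * p.2 i = ip (A (Sum.inr i)) _
      simp only [ip, A, Fintype.sum_sum_type, Sum.elim_inl, Sum.elim_inr]
      simp only [ite_mul, zero_mul, Finset.sum_ite_eq', Finset.mem_univ, if_true]
      rfl
  rw [h3]
  exact h2

/-- pointwise inequality -/
private lemma point (κ : Type) [Fintype κ] (F : (κ → ℝ) → ℝ) (D : (κ → ℝ) → κ → ℝ)
    (hF : ∀ g h, F g + ip (D g) h ≤ F (g + h)) (b : ℝ) (m : ℕ) (hb : 0 < b) (hm : 1 ≤ m)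
    (δ : ℝ) (hδ : m * δ = Real.pi / 2) (p : (κ → ℝ) × (κ → ℝ)) :
    Real.exp (-b * F p.2) * Real.exp (b * F p.1) ≤
      ∑ j ∈ Finset.range m, (1 / (m : ℝ)) *
        Real.exp (-(b * m) * ip (D (rt (Real.cos (j * δ)) (Real.sin (j * δ)) p).1)
          (fun i => (Real.cos δ - 1) * (rt (Real.cos (j * δ)) (Real.sin (j * δ)) p).1 i +
            Real.sin δ * (rt (Real.cos (j * δ)) (Real.sin (j * δ)) p).2 i)) := by
  set G : ℕ → (κ → ℝ) := fun j => (rt (Real.cos (j * δ)) (Real.sin (j * δ)) p).1 with hG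
  set G' : ℕ → (κ → ℝ) := fun j => (rt (Real.cos (j * δ)) (Real.sin (j * δ)) p).2 with hG'
  set H : ℕ → (κ → ℝ) := fun j i => (Real.cos δ - 1) * G j i + Real.sin δ * G' j i with hH
  have hstep : ∀ j, G (j + 1) = G j + H j := by
    intro j
    funext i
    simp only [hG, hH, hG', rt, Pi.add_apply]
    push_cast
    rw [add_mul, one_mul, Real.cos_add, Real.sin_add]
    ring
  have h0 : G 0 = p.1 := by
    funext i
    simp [hG, rt]
  have hmm : G m = p.2 := by
    funext i
    simp only [hG, rt]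
    rw [hδ]
    simp
  have h1 : ∀ j, F (G j) + ip (D (G j)) (H j) ≤ F (G (j + 1)) := by
    intro j
    rw [hstep]
    exact hF _ _
  have h2 : ∀ k : ℕ, F (G 0) + ∑ j ∈ Finset.range k, ip (D (G j)) (H j) ≤ F (G k) := by
    intro k
    induction k with
    | zero => simp
    | succ k ih =>
      rw [Finset.sum_range_succ]
      linarith [h1 k]
  have h3 := h2 m
  rw [h0, hmm] at h3
  have hm0 : (0 : ℝ) < m := by exact_mod_cast hm
  have h4 : -b * F p.2 + b * F p.1 ≤
      ∑ j ∈ Finset.range m, (1 / (m : ℝ)) • (-(b * m) * ip (D (G j)) (H j)) := by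
    have : ∑ j ∈ Finset.range m, (1 / (m : ℝ)) • (-(b * m) * ip (D (G j)) (H j)) =
        -b * ∑ j ∈ Finset.range m, ip (D (G j)) (H j) := by
      rw [Finset.mul_sum]
      refine Finset.sum_congr rfl fun j _ => ?_
      rw [smul_eq_mul]
      field_simp
    rw [this]
    nlinarith
  have h5 : Real.exp (∑ j ∈ Finset.range m, (1 / (m : ℝ)) • (-(b * m) * ip (D (G j)) (H j))) ≤
      ∑ j ∈ Finset.range m, (1 / (m : ℝ)) • Real.exp (-(b * m) * ip (D (G j)) (H j)) := by
    refine convexOn_exp.map_sum_le (fun j _ => by positivity) ?_ (fun j _ => Set.mem_univ _)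
    rw [Finset.sum_const, Finset.card_range, nsmul_eq_mul]
    field_simp
  rw [← Real.exp_add]
  refine (Real.exp_le_exp.2 h4).trans (h5.trans (le_of_eq ?_))
  refine Finset.sum_congr rfl fun j _ => ?_
  rw [smul_eq_mul]

private lemma ip_lin (κ : Type) [Fintype κ] (v g h : κ → ℝ) (a c d : ℝ) :
    a * ip v (fun i => c * g i + d * h i) = (a * c) * ip v g + ip (fun i => a * d * v i) h := by
  unfold ip
  rw [Finset.mul_sum, Finset.mul_sum, ← Finset.sum_add_distrib]
  refine Finset.sum_congr rfl fun i _ => ?_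
  ring

private lemma ip_sq (κ : Type) [Fintype κ] (v : κ → ℝ) (a : ℝ) :
    ip (fun i => a * v i) (fun i => a * v i) = a ^ 2 * ip v v := by
  unfold ip
  rw [Finset.mul_sum]
  refine Finset.sum_congr rfl fun i _ => ?_
  ring

private lemma cont_ip (κ X : Type) [Fintype κ] [TopologicalSpace X] (u v : X → κ → ℝ)
    (hu : Continuous u) (hv : Continuous v) : Continuous fun x => ip (u x) (v x) := by
  unfold ip
  exact continuous_finsetSum _ fun i _ =>
    ((continuous_apply i).comp hu).mul ((continuous_apply i).comp hv)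

theorem t_PIS (hL : St_LAW) : St_PIS := by
  intro κ _ F D hFc hDc hF hFi hFe b m hb hm hR
  have := prob_gam κ
  set δ : ℝ := Real.pi / (2 * m) with hδ
  have hm0 : (0 : ℝ) < m := by exact_mod_cast hm
  have hmδ : (m : ℝ) * δ = Real.pi / 2 := by rw [hδ]; field_simp
  set Φ : (κ → ℝ) × (κ → ℝ) → ℝ := fun p => Real.exp (-(b * m) * ip (D p.1)
    (fun i => (Real.cos δ - 1) * p.1 i + Real.sin δ * p.2 i)) with hΦ
  have hΦc : Continuous Φ := by
    rw [hΦ]
    refine Real.continuous_exp.comp (continuous_const.mul (cont_ip κ _ _ _ (hDc.comp continuous_fst) ?_))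
    exact continuous_pi fun i => by fun_prop
  set R : (κ → ℝ) → ℝ := fun g => Real.exp (b * m * (1 - Real.cos δ) * |ip (D g) g| +
    (b * m * Real.sin δ) ^ 2 / 2 * ip (D g) (D g)) with hRd
  -- the inner integral
  have hin : ∀ g : κ → ℝ, ∫⁻ h, ENNReal.ofReal (Φ (g, h)) ∂(gam κ) ≤ ENNReal.ofReal (R g) := by
    intro g
    have e1 : ∀ h : κ → ℝ, ENNReal.ofReal (Φ (g, h)) =
        ENNReal.ofReal (Real.exp ((-(b * m) * (Real.cos δ - 1)) * ip (D g) g)) *
          ENNReal.ofReal (Real.exp (ip (fun i => -(b * m) * Real.sin δ * D g i) h)) := by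
      intro h
      rw [← ENNReal.ofReal_mul (Real.exp_pos _).le, ← Real.exp_add]
      simp only [hΦ]
      rw [ip_lin]
    simp_rw [e1]
    rw [lintegral_const_mul' _ _ ENNReal.ofReal_ne_top, lint_exp_ip,
      ← ENNReal.ofReal_mul (Real.exp_pos _).le, ← Real.exp_add]
    refine ENNReal.ofReal_le_ofReal (Real.exp_le_exp.2 ?_)
    rw [ip_sq]
    have h1 : 0 ≤ b * m * (1 - Real.cos δ) :=
      mul_nonneg (by positivity) (by linarith [Real.cos_le_one δ])
    have h2 := le_abs_self (ip (D g) g)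
    have h3 : -(b * m) * (Real.cos δ - 1) * ip (D g) g = b * m * (1 - Real.cos δ) * ip (D g) g := by
      ring
    rw [h3]
    nlinarith [mul_le_mul_of_nonneg_left h2 h1]
  have hout : ∫⁻ p, ENNReal.ofReal (Φ p) ∂((gam κ).prod (gam κ)) ≤
      ENNReal.ofReal (∫ g, R g ∂(gam κ)) := by
    rw [lintegral_prod _ (hΦc.measurable.ennreal_ofReal.aemeasurable)]
    refine (lintegral_mono hin).trans (le_of_eq ?_)
    rw [ofReal_integral_eq_lintegral_ofReal hR
      (Filter.Eventually.of_forall fun g => (Real.exp_pos _).le)]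
  -- the product side
  have hprod : ENNReal.ofReal (∫ g, Real.exp (-b * F g) ∂(gam κ)) *
      ENNReal.ofReal (∫ g, Real.exp (b * F g) ∂(gam κ)) =
      ∫⁻ p, ENNReal.ofReal (Real.exp (-b * F p.2) * Real.exp (b * F p.1))
        ∂((gam κ).prod (gam κ)) := by
    have hc1 : Continuous fun g => Real.exp (-b * F g) :=
      Real.continuous_exp.comp (continuous_const.mul hFc)
    have hc2 : Continuous fun g => Real.exp (b * F g) :=
      Real.continuous_exp.comp (continuous_const.mul hFc)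
    rw [ofReal_integral_eq_lintegral_ofReal (hFe (-b))
      (Filter.Eventually.of_forall fun g => (Real.exp_pos _).le),
      ofReal_integral_eq_lintegral_ofReal (hFe b)
      (Filter.Eventually.of_forall fun g => (Real.exp_pos _).le), mul_comm,
      ← lintegral_prod_mul hc2.measurable.ennreal_ofReal.aemeasurable
        hc1.measurable.ennreal_ofReal.aemeasurable]
    refine lintegral_congr fun p => ?_
    rw [ENNReal.ofReal_mul (Real.exp_pos _).le, mul_comm]
  -- the sum
  have hsum : ∫⁻ p, ENNReal.ofReal (Real.exp (-b * F p.2) * Real.exp (b * F p.1))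
        ∂((gam κ).prod (gam κ)) ≤ ∫⁻ p, ENNReal.ofReal (Φ p) ∂((gam κ).prod (gam κ)) := by
    have h1 : ∀ p : (κ → ℝ) × (κ → ℝ),
        ENNReal.ofReal (Real.exp (-b * F p.2) * Real.exp (b * F p.1)) ≤
          ∑ j ∈ Finset.range m, ENNReal.ofReal (1 / (m : ℝ)) *
            ENNReal.ofReal (Φ (rt (Real.cos (j * δ)) (Real.sin (j * δ)) p)) := by
      intro p
      refine (ENNReal.ofReal_le_ofReal (point κ F D hF b m hb hm δ hmδ p)).trans (le_of_eq ?_)
      rw [ENNReal.ofReal_sum_of_nonneg (fun j _ => by positivity)]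
      refine Finset.sum_congr rfl fun j _ => ?_
      rw [ENNReal.ofReal_mul (by positivity)]
    refine (lintegral_mono h1).trans ?_
    rw [lintegral_finsetSum']
    · have h2 : ∀ j ∈ Finset.range m, ∫⁻ p, ENNReal.ofReal (1 / (m : ℝ)) *
          ENNReal.ofReal (Φ (rt (Real.cos (j * δ)) (Real.sin (j * δ)) p))
            ∂((gam κ).prod (gam κ)) = ENNReal.ofReal (1 / (m : ℝ)) *
          ∫⁻ p, ENNReal.ofReal (Φ p) ∂((gam κ).prod (gam κ)) := by
        intro j _
        rw [lintegral_const_mul' _ _ ENNReal.ofReal_ne_top]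
        congr 1
        exact (rot hL κ _ _ (Real.cos_sq_add_sin_sq _)).lintegral_comp
          (f := fun p => ENNReal.ofReal (Φ p)) hΦc.measurable.ennreal_ofReal
      rw [Finset.sum_congr rfl h2, Finset.sum_const, Finset.card_range, nsmul_eq_mul, ← mul_assoc]
      have h3 : (m : ENNReal) * ENNReal.ofReal (1 / (m : ℝ)) = 1 := by
        rw [← ENNReal.ofReal_natCast, ← ENNReal.ofReal_mul (by positivity)]
        rw [mul_one_div_cancel hm0.ne']
        simp
      rw [h3, one_mul]
    · intro j _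
      have h4 : Measurable fun p : (κ → ℝ) × (κ → ℝ) =>
          ENNReal.ofReal (Φ (rt (Real.cos (j * δ)) (Real.sin (j * δ)) p)) :=
        (hΦc.measurable.ennreal_ofReal).comp
          (rot hL κ _ _ (Real.cos_sq_add_sin_sq (j * δ))).measurable
      exact (h4.const_mul _).aemeasurable
  have hfin : ENNReal.ofReal (∫ g, Real.exp (-b * F g) ∂(gam κ)) *
      ENNReal.ofReal (∫ g, Real.exp (b * F g) ∂(gam κ)) ≤ ENNReal.ofReal (∫ g, R g ∂(gam κ)) :=
    hprod.le.trans (hsum.trans hout)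
  have hp1 : 0 ≤ ∫ g, Real.exp (-b * F g) ∂(gam κ) :=
    integral_nonneg fun g => (Real.exp_pos _).le
  have hp2 : 0 ≤ ∫ g, R g ∂(gam κ) := integral_nonneg fun g => (Real.exp_pos _).le
  rw [← ENNReal.ofReal_mul hp1, ENNReal.ofReal_le_ofReal_iff hp2] at hfin
  have hjen : Real.exp (∫ g, b * F g ∂(gam κ)) ≤ ∫ g, Real.exp (b * F g) ∂(gam κ) :=
    convexOn_exp.map_integral_le Real.continuous_exp.continuousOn isClosed_univ
      (Filter.Eventually.of_forall fun g => Set.mem_univ _) (hFi.const_mul b) (hFe b)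
  rw [integral_const_mul] at hjen
  change (∫ g, Real.exp (-b * F g) ∂(gam κ)) ≤ Real.exp (-b * ∫ g, F g ∂(gam κ)) *
    ∫ g, R g ∂(gam κ)
  have h6 : (∫ g, Real.exp (-b * F g) ∂(gam κ)) * Real.exp (b * ∫ g, F g ∂(gam κ)) ≤
      ∫ g, R g ∂(gam κ) := (mul_le_mul_of_nonneg_left hjen hp1).trans hfin
  have h7 : Real.exp (-b * ∫ g, F g ∂(gam κ)) * Real.exp (b * ∫ g, F g ∂(gam κ)) = 1 := by
    rw [← Real.exp_add]; simp
  have h8 := mul_le_mul_of_nonneg_left h6 (Real.exp_pos (-b * ∫ g, F g ∂(gam κ))).le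
  calc (∫ g, Real.exp (-b * F g) ∂(gam κ))
      = Real.exp (-b * ∫ g, F g ∂(gam κ)) * ((∫ g, Real.exp (-b * F g) ∂(gam κ)) *
          Real.exp (b * ∫ g, F g ∂(gam κ))) := by
        rw [mul_left_comm, h7, mul_one]
    _ ≤ _ := h8

end Pool.TH667.DFMP
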